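import Pool.Agent.N587.FX.Asym

set_option autoImplicit false

/-!
# 2-to-1 games: reductions computed by subquadratic formulas

A reduction of parity to gap 2-to-1 games in two steps: first a circuit `C` of constant depth with
any number of adaptive oracle gates (`OCircuit` in `Pool/Agent/N587/OT/Defs.lean`), then a game which
is written down by formulas (with AND and OR gates of fan-in two, negations at the leaves,
`Pool/Agent/N587/UG/Form.lean`): every bit of every edge is the value of a formula with at most `L`
leaves, each of which is a node of `C` or its negation. If `C` has size `2 ^ (n ^ o(1))`, then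
`L ≥ n ^ (2 - o(1))`; formulas with `n ^ 2` leaves compute parity itself. The number of the edges is
not restricted.

If every bit of every edge is a unate function of the input (of any complexity; the signs may depend
on the bit), then there is no reduction at all, unless an edge is encoded by more than
`(1 - δ) √n` bits.

The idea of the proof: flipping one input bit changes the value of the game from one to at most `δ`
or conversely, hence it changes a fraction of `1 - δ` of the edges; so some bit of the edges has large
average sensitivity. After a restriction of the inputs, which is found as in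
`AC0TuringReductions.lean`, all nodes of `C` have shallow decision trees, and then a formula with `L`
leaves has average sensitivity `√L` times the depth (Khrapchenko's bound for formulas whose leaves
are functions of small sensitivity, `Pool/Agent/N587/FX/Kh.lean`).
-/

namespace Pool.Agent.Results.MP_ec946a_lc.SubquadraticFormulas

open Finset Pool.Agent.N587.OT Pool.Agent.N587.UG Pool.Agent.N587.FX

/-- An edge of a 2-to-1 game with the vertex sets `U` and `V` and the alphabet `[q]`: its ends `u`
and `v` and a map `π` of labels, all of whose fibres have at most two elements. -/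
structure Con (U V : Type) (q : ℕ) where
  u : U
  v : V
  π : Fin q → Fin q
  two : ∀ b, (univ.filter fun a => π a = b).card ≤ 2

/-- the labels `f` and `g` satisfy the edge -/
def Con.Sat {U V : Type} {q : ℕ} (c : Con U V q) (f : U → Fin q) (g : V → Fin q) : Prop :=
  c.π (f c.u) = g c.v

variable {U V : Type} {q l : ℕ}

/-- The word `a` encodes a game (a nonempty list of edges, one by each of its `m` symbols) of value
one. -/
def IsYes (dec : (Fin l → Bool) → Option (Con U V q)) (m : ℕ) (a : Fin m → Fin l → Bool) : Prop :=
  0 < m ∧ ∃ E : Fin m → Con U V q, (∀ i, dec (a i) = some (E i)) ∧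
    ∃ (f : U → Fin q) (g : V → Fin q), ∀ i, (E i).Sat f g

open scoped Classical in
/-- The word `a` encodes a game (a nonempty list of edges, one by each of its `m` symbols) of value
at most `δ`. -/
def IsNo (dec : (Fin l → Bool) → Option (Con U V q)) (δ : ℝ) (m : ℕ) (a : Fin m → Fin l → Bool) :
    Prop :=
  0 < m ∧ ∃ E : Fin m → Con U V q, (∀ i, dec (a i) = some (E i)) ∧
    ∀ (f : U → Fin q) (g : V → Fin q), ((univ.filter fun i => (E i).Sat f g).card : ℝ) ≤ δ * m

theorem gap (dec : (Fin l → Bool) → Option (Con U V q)) {δ : ℝ} {m : ℕ}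
    {a b : Fin m → Fin l → Bool} (ha : IsYes dec m a) (hb : IsNo dec δ m b) :
    by classical exact (1 - δ) * m ≤ ((univ.filter fun i => a i ≠ b i).card : ℝ) := by
  classical
  obtain ⟨hm, E, hE, f, g, hfg⟩ := ha
  obtain ⟨_, E', hE', hno⟩ := hb
  have h1 : (univ.filter fun i => ∃ c, dec (a i) = some c ∧ c.Sat f g) = univ := by
    ext i
    simp only [mem_filter, mem_univ, true_and, iff_true]
    exact ⟨E i, hE i, hfg i⟩
  have h2 : (univ.filter fun i => ∃ c, dec (b i) = some c ∧ c.Sat f g) =
      univ.filter fun i => (E' i).Sat f g := by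
    ext i
    simp only [mem_filter, mem_univ, true_and, hE', Option.some.injEq]
    constructor
    · rintro ⟨c, hc, h⟩
      rw [hc]
      exact h
    · intro h
      exact ⟨_, rfl, h⟩
  have h3 := differ a b dec (fun c => c.Sat f g) (u := m) (v := δ * m) (by
    rw [h1, card_univ, Fintype.card_fin]) (by
    rw [h2]
    exact hno f g)
  refine (le_of_eq (by ring)).trans (h3.trans (le_of_eq ?_))
  congr!

/-- Let `C` be a circuit with `n` inputs, `s` gates (oracle gates among them) and depth at most `h`
whose queries are words of symbols of `l ≥ 1` bits, and let `W` be formulas with at most `L` leaves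
over the nodes of `C`, one for each bit of a word of `m` symbols. Let `dec` be any map which decodes
symbols to edges of 2-to-1 games with the alphabet `[q]`, and let `Y` and `Z` be sets of words such
that every word in `Y` encodes a game of value one and every word in `Z` a game of value at most
`δ < 1`. Suppose that for all oracles which accept the words in `Y` and reject the words in `Z` the
word computed by `C` and `W` is in `Y` for the inputs of even parity and in `Z` for the inputs of odd
parity (`Reduces`).
(1) If `s ≤ 2 ^ u` and `l ≤ (1 - δ) 2 ^ u` with `u ≥ 1`, then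
`n (1 - δ) ^ (h + 1) ≤ (2 ^ 60 l u ^ 3) ^ h * 3 l u √L`.
(2) For every depth `h` and every `ε > 0` there are `η > 0` and `N₀` such that `L > n ^ (2 - ε)` if
`n ≥ N₀`, `s ≤ 2 ^ (n ^ η)`, `l ≤ n ^ η` and `1 - δ ≥ n ^ (-η)`.
(3) If `w` maps the inputs of even parity to games of value one and the inputs of odd parity to games
of value at most `δ < 1` such that all bits of `w` are unate functions of the input, then
`(1 - δ) ^ 2 n ≤ l ^ 2`. -/
theorem result :
    (∀ (n s l h u m L q : ℕ) (U V : Type) (C : OCircuit n s l h)
      (W : Fin m → Fin l → Formula (Node n s)) (dec : (Fin l → Bool) → Option (Con U V q)) (δ : ℝ)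
      (Y Z : (m : ℕ) → (Fin m → Fin l → Bool) → Prop), 1 ≤ l → 0 ≤ δ → δ < 1 →
      (∀ m a, Y m a → IsYes dec m a) → (∀ m a, Z m a → IsNo dec δ m a) →
      (∀ i c, (W i c).leaves ≤ L) → Reduces C W Y Z →
      1 ≤ u → s ≤ 2 ^ u → (l : ℝ) ≤ (1 - δ) * 2 ^ u →
      n * (1 - δ) ^ (h + 1) ≤ (2 ^ 60 * (l * u ^ 3)) ^ h * (l * (3 * u * Real.sqrt L))) ∧
    (∀ (h : ℕ) (ε : ℝ), 0 < ε → ∃ η : ℝ, 0 < η ∧ ∃ N₀ : ℕ,
      ∀ (n s l m L q : ℕ) (U V : Type) (C : OCircuit n s l h)
      (W : Fin m → Fin l → Formula (Node n s)) (dec : (Fin l → Bool) → Option (Con U V q)) (δ : ℝ)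
      (Y Z : (m : ℕ) → (Fin m → Fin l → Bool) → Prop), 1 ≤ l → 0 ≤ δ → δ < 1 →
      (∀ m a, Y m a → IsYes dec m a) → (∀ m a, Z m a → IsNo dec δ m a) →
      (∀ i c, (W i c).leaves ≤ L) → Reduces C W Y Z →
      N₀ ≤ n → (s : ℝ) ≤ 2 ^ ((n : ℝ) ^ η) → (l : ℝ) ≤ (n : ℝ) ^ η → 1 ≤ (1 - δ) * (n : ℝ) ^ η →
      (n : ℝ) ^ (2 - ε) < L) ∧
    ∀ (n l m q : ℕ) (U V : Type) (dec : (Fin l → Bool) → Option (Con U V q)) (δ : ℝ)
      (w : (Fin n → Bool) → Fin m → Fin l → Bool), 1 ≤ n → 0 ≤ δ → δ < 1 →
      (∀ i c, Unate fun x => w x i c) →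
      (∀ x, ¬ Odd (univ.filter fun i => x i = true).card → IsYes dec m (w x)) →
      (∀ x, Odd (univ.filter fun i => x i = true).card → IsNo dec δ m (w x)) →
      (1 - δ) ^ 2 * n ≤ (l : ℝ) ^ 2 := by
  refine ⟨?_, ?_, ?_⟩
  · intro n s l h u m L q U V C W dec δ Y Z hl hδ0 hδ1 hY hZ hL hred hu hs hlu
    exact formula_bound (C := C) W hL hu hs hl (by linarith) (by linarith) hlu
      (fun m a b ha hb => gap dec (hY m a ha) (hZ m b hb)) (fun m a ha => (hY m a ha).1) hred
  · intro h ε hε
    obtain ⟨η, hη, N₀, hN⟩ := asym h hε
    refine ⟨η, hη, N₀, ?_⟩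
    intro n s l m L q U V C W dec δ Y Z hl hδ0 hδ1 hY hZ hL hred hn hs hlη hγ
    exact hN C W (γ := 1 - δ) hn hs hl hlη (by linarith) hγ
      (fun m a b ha hb => gap dec (hY m a ha) (hZ m b hb)) (fun m a ha => (hY m a ha).1) hL hred
  · intro n l m q U V dec δ w hn hδ0 hδ1 hw hyes hno
    exact unate_bound (Y := IsYes dec) (Z := IsNo dec δ) w hw (by omega) (by linarith)
      (fun m a b ha hb => gap dec ha hb) (fun m a ha => ha.1) hyes hno

end Pool.Agent.Results.MP_ec946a_lc.SubquadraticFormulas
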